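import Mathlib

/-!
# MP_21a028_co: graphs of clique-width at most `4` are not DOM-bounded
-/

namespace Pool.Agent.Results.MP_21a028_co.CliqueWidthFour

open SimpleGraph Set

/-- Labelled graphs that can be built with labels in `Fin t` by the four operations. -/
inductive Built (t : ℕ) : ∀ V : Type, SimpleGraph V → (V → Fin t) → Prop
  | single (i : Fin t) : Built t Unit ⊥ (fun _ => i)
  | union (V W : Type) (G : SimpleGraph V) (H : SimpleGraph W) (l : V → Fin t) (m : W → Fin t) :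
      Built t V G l → Built t W H m → Built t (V ⊕ W) (G ⊕g H) (Sum.elim l m)
  | relabel (V : Type) (G : SimpleGraph V) (l : V → Fin t) (i j : Fin t) :
      Built t V G l → Built t V G (fun v => if l v = i then j else l v)
  | join (V : Type) (G : SimpleGraph V) (l : V → Fin t) (i j : Fin t) : i ≠ j →
      Built t V G l → Built t V (G ⊔ SimpleGraph.fromRel (fun u v => l u = i ∧ l v = j)) l

/-- `G` can be built with at most `t` labels. -/
def CwLE {V : Type} (G : SimpleGraph V) (t : ℕ) : Prop :=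
  ∃ s ≤ t, ∃ (W : Type) (G' : SimpleGraph W) (l : W → Fin s), Built s W G' l ∧
    Nonempty (G ≃g G')

/-- A class of finite graphs. -/
abbrev GraphClass := ∀ V : Type, SimpleGraph V → Prop

/-- The class `𝒞_t` of the finite graphs of clique-width at most `t`. -/
def cwClass (t : ℕ) : GraphClass := fun V G => Finite V ∧ CwLE G t

/-- `X` is dominating: `N[X] = V(G)`. -/
def Dominating {V : Type} (G : SimpleGraph V) (X : Set V) : Prop :=
  ∀ v, ∃ x ∈ X, x = v ∨ G.Adj x v

/-- The vertex set can be partitioned into `k` dominating sets (the fibres of `f`). -/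
def HasDomaticPartition {V : Type} (G : SimpleGraph V) (k : ℕ) : Prop :=
  ∃ f : V → Fin k, ∀ i, Dominating G (f ⁻¹' {i})

/-- The domatic number. -/
noncomputable def domaticNumber {V : Type} (G : SimpleGraph V) : ℕ :=
  sSup {k | HasDomaticPartition G k}

/-- For every `c` there is `d` such that every nonempty `G` in the class with minimum degree at
least `d` has `dom(G) > c`. -/
def DomBounded (𝒢 : GraphClass) : Prop :=
  ∀ c : ℕ, ∃ d : ℕ, ∀ (V : Type) [Nonempty V] (G : SimpleGraph V), 𝒢 V G →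
    (∀ v, d ≤ (G.neighborSet v).ncard) → c < domaticNumber G

variable {V W : Type}

/-- `v` is not dominated by the class `X` of `f` -/
def Und {c : ℕ} (G : SimpleGraph V) (f : V → Fin c) (v : V) (X : Fin c) : Prop :=
  f v ≠ X ∧ ∀ w, G.Adj v w → f w ≠ X

def Bad (G : SimpleGraph V) (l : V → Fin 4) (f : V → Fin 4) (X X' : Fin 4) : Prop :=
  (∃ b, l b = 2 ∧ ∃ Y, Und G f b Y) ∨ (∃ v, l v = 1 ∧ (Und G f v X ∨ Und G f v X')) ∨
    (∃ v, l v = 0 ∧ Und G f v X ∧ Und G f v X')

structure Good (k m j : ℕ) (V : Type) (G : SimpleGraph V) (l : V → Fin 4) : Prop where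
  built : Built 4 V G l
  fin : Finite V
  lab : ∀ v, l v ≠ 3
  deg01 : ∀ v, l v ≠ 2 → min m k ≤ (G.neighborSet v).ncard
  deg2 : ∀ v, l v = 2 → k ≤ (G.neighborSet v).ncard
  col : ∀ f : V → Fin 4, ∀ X X' : Fin 4, X ≠ X' → (∃ x, l x = 0 ∧ f x ≠ X ∧ f x ≠ X') → Bad G l f X X'
  roots : j ≤ {v | l v = 0}.ncard

lemma nbr_inl (G : SimpleGraph V) (H : SimpleGraph W) (v : V) :
    (G ⊕g H).neighborSet (Sum.inl v) = Sum.inl '' (G.neighborSet v) := by
  ext x
  rcases x with x | x <;> simp [mem_neighborSet]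

lemma nbr_inr (G : SimpleGraph V) (H : SimpleGraph W) (v : W) :
    (G ⊕g H).neighborSet (Sum.inr v) = Sum.inr '' (H.neighborSet v) := by
  ext x
  rcases x with x | x <;> simp [mem_neighborSet]

lemma und_inl {c : ℕ} (G : SimpleGraph V) (H : SimpleGraph W) (f : V ⊕ W → Fin c) (v : V)
    (X : Fin c) (h : Und G (f ∘ Sum.inl) v X) : Und (G ⊕g H) f (Sum.inl v) X := by
  refine ⟨h.1, ?_⟩
  rintro (w | w) hw
  · exact h.2 w (by simpa using hw)
  · simp at hw

lemma und_inr {c : ℕ} (G : SimpleGraph V) (H : SimpleGraph W) (f : V ⊕ W → Fin c) (v : W)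
    (X : Fin c) (h : Und H (f ∘ Sum.inr) v X) : Und (G ⊕g H) f (Sum.inr v) X := by
  refine ⟨h.1, ?_⟩
  rintro (w | w) hw
  · simp at hw
  · exact h.2 w (by simpa using hw)

lemma good_union {k m i j : ℕ} {G : SimpleGraph V} {H : SimpleGraph W} {l : V → Fin 4}
    {l' : W → Fin 4} (hG : Good k m i V G l) (hH : Good k m j W H l') :
    Good k m (i + j) (V ⊕ W) (G ⊕g H) (Sum.elim l l') := by
  have := hG.fin
  have := hH.fin
  refine ⟨.union _ _ _ _ _ _ hG.built hH.built, inferInstance, ?_, ?_, ?_, ?_, ?_⟩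
  · rintro (v | v)
    · exact hG.lab v
    · exact hH.lab v
  · rintro (v | v) hv
    · rw [nbr_inl, ncard_image_of_injective _ Sum.inl_injective]
      exact hG.deg01 v hv
    · rw [nbr_inr, ncard_image_of_injective _ Sum.inr_injective]
      exact hH.deg01 v hv
  · rintro (v | v) hv
    · rw [nbr_inl, ncard_image_of_injective _ Sum.inl_injective]
      exact hG.deg2 v hv
    · rw [nbr_inr, ncard_image_of_injective _ Sum.inr_injective]
      exact hH.deg2 v hv
  · rintro f X X' hXX ⟨x | x, hx, hx1, hx2⟩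
    · rcases hG.col (f ∘ Sum.inl) X X' hXX ⟨x, hx, hx1, hx2⟩ with
        ⟨b, hb, Y, hY⟩ | ⟨v, hv, h⟩ | ⟨v, hv, h1, h2⟩
      · exact Or.inl ⟨Sum.inl b, hb, Y, und_inl G H f b Y hY⟩
      · exact Or.inr (Or.inl ⟨Sum.inl v, hv, h.imp (und_inl G H f v X) (und_inl G H f v X')⟩)
      · exact Or.inr (Or.inr ⟨Sum.inl v, hv, und_inl G H f v X h1, und_inl G H f v X' h2⟩)
    · rcases hH.col (f ∘ Sum.inr) X X' hXX ⟨x, hx, hx1, hx2⟩ with
        ⟨b, hb, Y, hY⟩ | ⟨v, hv, h⟩ | ⟨v, hv, h1, h2⟩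
      · exact Or.inl ⟨Sum.inr b, hb, Y, und_inr G H f b Y hY⟩
      · exact Or.inr (Or.inl ⟨Sum.inr v, hv, h.imp (und_inr G H f v X) (und_inr G H f v X')⟩)
      · exact Or.inr (Or.inr ⟨Sum.inr v, hv, und_inr G H f v X h1, und_inr G H f v X' h2⟩)
  · have h1 : {v | Sum.elim l l' v = 0} = Sum.inl '' {v | l v = 0} ∪ Sum.inr '' {v | l' v = 0} := by
      ext x
      rcases x with x | x <;> simp
    rw [h1, ncard_union_eq ?_ (toFinite _) (toFinite _),
      ncard_image_of_injective _ Sum.inl_injective, ncard_image_of_injective _ Sum.inr_injective]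
    · exact Nat.add_le_add hG.roots hH.roots
    · rw [Set.disjoint_left]
      rintro _ ⟨a, _, rfl⟩ ⟨b, _, hb⟩
      cases hb

lemma good_forest {k m : ℕ} {G : SimpleGraph V} {l : V → Fin 4} (hG : Good k m 1 V G l) (j : ℕ) :
    ∃ (W : Type) (H : SimpleGraph W) (l' : W → Fin 4), Good k m (j + 1) W H l' := by
  induction j with
  | zero => exact ⟨V, G, l, hG⟩
  | succ j ih =>
    obtain ⟨W, H, l', h⟩ := ih
    exact ⟨_, _, _, good_union h hG⟩

lemma good_mono {k m i j : ℕ} {G : SimpleGraph V} {l : V → Fin 4} (hG : Good k m i V G l)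
    (hij : j ≤ i) : Good k m j V G l :=
  ⟨hG.built, hG.fin, hG.lab, hG.deg01, hG.deg2, hG.col, hij.trans hG.roots⟩

/-- the graph after adding `b` -/
def G2 (G : SimpleGraph V) (l : V → Fin 4) : SimpleGraph (V ⊕ Unit) :=
  (G ⊕g (⊥ : SimpleGraph Unit)) ⊔ SimpleGraph.fromRel (fun u v =>
    Sum.elim l (fun _ => (3 : Fin 4)) u = 3 ∧ Sum.elim l (fun _ => (3 : Fin 4)) v = 0)

/-- its labelling after the two relabellings -/
def l4 (l : V → Fin 4) : V ⊕ Unit → Fin 4 := fun v =>
  if (fun v => if Sum.elim l (fun _ => (3 : Fin 4)) v = 3 then (2 : Fin 4)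
    else Sum.elim l (fun _ => (3 : Fin 4)) v) v = 0 then 1
  else (fun v => if Sum.elim l (fun _ => (3 : Fin 4)) v = 3 then (2 : Fin 4)
    else Sum.elim l (fun _ => (3 : Fin 4)) v) v

/-- the graph after adding the root -/
def G6 (G : SimpleGraph V) (l : V → Fin 4) : SimpleGraph ((V ⊕ Unit) ⊕ Unit) :=
  (G2 G l ⊕g (⊥ : SimpleGraph Unit)) ⊔ SimpleGraph.fromRel (fun u v =>
    Sum.elim (l4 l) (fun _ => (0 : Fin 4)) u = 0 ∧ Sum.elim (l4 l) (fun _ => (0 : Fin 4)) v = 1)

lemma l4_inl (l : V → Fin 4) (hl : ∀ v, l v ≠ 3) (v : V) :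
    l4 l (Sum.inl v) = if l v = 0 then 1 else l v := by
  simp [l4, hl v]

lemma l4_inr (l : V → Fin 4) : l4 l (Sum.inr ()) = 2 := by
  simp [l4]

lemma l4_ne0 (l : V → Fin 4) (hl : ∀ v, l v ≠ 3) (v : V ⊕ Unit) : l4 l v ≠ 0 := by
  rcases v with v | v
  · rw [l4_inl l hl]
    split_ifs with h
    · decide
    · exact h
  · rw [l4_inr]
    decide

lemma adj_vv (G : SimpleGraph V) (l : V → Fin 4) (hl : ∀ v, l v ≠ 3) (u v : V) :
    (G6 G l).Adj (Sum.inl (Sum.inl u)) (Sum.inl (Sum.inl v)) ↔ G.Adj u v := by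
  have h1 := l4_ne0 l hl (Sum.inl u)
  have h2 := l4_ne0 l hl (Sum.inl v)
  simp [G6, G2, sup_adj, fromRel_adj, h1, h2, hl]

lemma adj_vb (G : SimpleGraph V) (l : V → Fin 4) (hl : ∀ v, l v ≠ 3) (u : V) :
    (G6 G l).Adj (Sum.inl (Sum.inl u)) (Sum.inl (Sum.inr ())) ↔ l u = 0 := by
  have h1 := l4_ne0 l hl (Sum.inl u)
  have h2 := l4_ne0 l hl (Sum.inr ())
  simp [G6, G2, sup_adj, fromRel_adj, h1, h2, hl]

lemma adj_vr (G : SimpleGraph V) (l : V → Fin 4) (hl : ∀ v, l v ≠ 3) (u : V) :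
    (G6 G l).Adj (Sum.inl (Sum.inl u)) (Sum.inr ()) ↔ l u ≠ 2 := by
  have h1 := l4_ne0 l hl (Sum.inl u)
  simp only [G6, sup_adj, sum_adj, fromRel_adj, Sum.elim_inl, Sum.elim_inr, h1, false_and,
    true_and, false_or, ne_eq, reduceCtorEq, not_false_eq_true, l4_inl l hl]
  have := hl u
  generalize l u = x at *
  revert x
  decide

lemma adj_br (G : SimpleGraph V) (l : V → Fin 4) (hl : ∀ v, l v ≠ 3) :
    ¬ (G6 G l).Adj (Sum.inl (Sum.inr ())) (Sum.inr ()) := by
  have h1 := l4_ne0 l hl (Sum.inr ())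
  simp [G6, sup_adj, fromRel_adj, h1, l4_inr]

lemma good_step {k m : ℕ} {G : SimpleGraph V} {l : V → Fin 4} (hG : Good k m k V G l) :
    Good k (m + 1) 1 ((V ⊕ Unit) ⊕ Unit) (G6 G l) (Sum.elim (l4 l) (fun _ => 0)) := by
  have hfin := hG.fin
  have hl := hG.lab
  have inj : Function.Injective (fun v : V => (Sum.inl (Sum.inl v) : (V ⊕ Unit) ⊕ Unit)) := by
    intro a b h
    exact Sum.inl.inj (Sum.inl.inj h)
  have hsubV : ∀ v, (fun v : V => (Sum.inl (Sum.inl v) : (V ⊕ Unit) ⊕ Unit)) ''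
      (G.neighborSet v) ⊆ (G6 G l).neighborSet (Sum.inl (Sum.inl v)) := by
    rintro v _ ⟨w, hw, rfl⟩
    exact (adj_vv G l hl v w).2 hw
  have hroot : k ≤ ((G6 G l).neighborSet (Sum.inr ())).ncard := by
    refine hG.roots.trans ?_
    rw [← ncard_image_of_injective _ inj]
    refine ncard_le_ncard ?_ (toFinite _)
    rintro _ ⟨w, hw, rfl⟩
    refine ((adj_vr G l hl w).2 ?_).symm
    rw [mem_ofPred_eq] at hw
    rw [hw]
    decide
  refine ⟨?_, inferInstance, ?_, ?_, ?_, ?_, ?_⟩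
  · refine .join _ _ _ _ _ (by decide) (.union _ _ _ _ _ _ ?_ (.single 0))
    refine .relabel _ _ _ _ _ (.relabel _ _ _ _ _ ?_)
    exact .join _ _ _ _ _ (by decide) (.union _ _ _ _ _ _ hG.built (.single 3))
  · rintro ((v | v) | v)
    · simp only [Sum.elim_inl, l4_inl l hl]
      split_ifs
      · decide
      · exact hl v
    · simp only [Sum.elim_inl]
      rw [l4_inr]; decide
    · simp
  · rintro ((v | v) | v) hv
    · simp only [Sum.elim_inl, l4_inl l hl] at hv
      have hv2 : l v ≠ 2 := by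
        intro h
        rw [h] at hv
        exact hv (by decide)
      have h1 := hG.deg01 v hv2
      have h2 : insert (Sum.inr ()) ((fun v : V => (Sum.inl (Sum.inl v) : (V ⊕ Unit) ⊕ Unit)) ''
          (G.neighborSet v)) ⊆ (G6 G l).neighborSet (Sum.inl (Sum.inl v)) := by
        rw [insert_subset_iff]
        exact ⟨(adj_vr G l hl v).2 hv2, hsubV v⟩
      have h3 := ncard_le_ncard h2 (toFinite _)
      rw [ncard_insert_of_notMem (by simp) (toFinite _), ncard_image_of_injective _ inj] at h3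
      omega
    · simp only [Sum.elim_inl] at hv
      exact absurd (l4_inr l) hv
    · exact (min_le_right _ _).trans hroot
  · rintro ((v | v) | v) hv
    · simp only [Sum.elim_inl, l4_inl l hl] at hv
      have hv2 : l v = 2 := by
        split_ifs at hv with h
        · exact absurd hv (by decide)
        · exact hv
      have h3 := ncard_le_ncard (hsubV v) (toFinite _)
      rw [ncard_image_of_injective _ inj] at h3
      exact (hG.deg2 v hv2).trans h3
    · refine hG.roots.trans ?_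
      rw [← ncard_image_of_injective _ inj]
      refine ncard_le_ncard ?_ (toFinite _)
      rintro _ ⟨w, hw, rfl⟩
      exact ((adj_vb G l hl w).2 hw).symm
    · simp at hv
  · rintro f X X' hXX ⟨x, hx, hx1, hx2⟩
    have hxr : x = Sum.inr () := by
      rcases x with x | x
      · exact absurd hx (l4_ne0 l hl x)
      · rfl
    subst hxr
    obtain ⟨Y, hY1, hY2, hY3⟩ : ∃ Y : Fin 4, Y ≠ X ∧ Y ≠ X' ∧ Y ≠ f (Sum.inl (Sum.inr ())) := by
      generalize f (Sum.inl (Sum.inr ())) = z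
      clear hx1 hx2 hXX
      revert X X' z
      decide
    by_cases hch : ∃ v, l v = 0 ∧ f (Sum.inl (Sum.inl v)) = Y
    · obtain ⟨v, hv0, hvY⟩ := hch
      rcases hG.col (fun v => f (Sum.inl (Sum.inl v))) X X' hXX ⟨v, hv0, by rwa [hvY], by rwa [hvY]⟩
        with ⟨b, hb, Z, hZ⟩ | ⟨u, hu, h⟩ | ⟨u, hu, h1, h2⟩
      · refine Or.inl ⟨Sum.inl (Sum.inl b), ?_, Z, hZ.1, ?_⟩
        · simp [l4_inl l hl, hb]
        · rintro ((w | w) | w) hw
          · exact hZ.2 w ((adj_vv G l hl b w).1 hw)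
          · rw [adj_vb G l hl, hb] at hw
            exact absurd hw (by decide)
          · rw [adj_vr G l hl] at hw
            exact absurd hb hw
      · have key : ∀ Z, f (Sum.inr ()) ≠ Z → Und G (fun v => f (Sum.inl (Sum.inl v))) u Z →
            Und (G6 G l) f (Sum.inl (Sum.inl u)) Z := by
          rintro Z hfZ hZ
          refine ⟨hZ.1, ?_⟩
          rintro ((w | w) | w) hw
          · exact hZ.2 w ((adj_vv G l hl u w).1 hw)
          · rw [adj_vb G l hl, hu] at hw
            exact absurd hw (by decide)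
          · exact hfZ
        refine Or.inr (Or.inl ⟨Sum.inl (Sum.inl u), ?_, h.imp (key X hx1) (key X' hx2)⟩)
        simp [l4_inl l hl, hu]
      · have key : ∀ Z, f (Sum.inr ()) ≠ Z → f (Sum.inl (Sum.inr ())) ≠ Z →
            Und G (fun v => f (Sum.inl (Sum.inl v))) u Z →
            Und (G6 G l) f (Sum.inl (Sum.inl u)) Z := by
          rintro Z hfZ hfZ' hZ
          refine ⟨hZ.1, ?_⟩
          rintro ((w | w) | w) hw
          · exact hZ.2 w ((adj_vv G l hl u w).1 hw)
          · exact hfZ'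
          · exact hfZ
        refine Or.inr (Or.inl ⟨Sum.inl (Sum.inl u), ?_, ?_⟩)
        · simp [l4_inl l hl, hu]
        · by_cases hbX : f (Sum.inl (Sum.inr ())) = X
          · exact Or.inr (key X' hx2 (fun h => hXX (hbX.symm.trans h)) h2)
          · exact Or.inl (key X hx1 hbX h1)
    · refine Or.inl ⟨Sum.inl (Sum.inr ()), by simp [l4_inr], Y, Ne.symm hY3, ?_⟩
      rintro ((w | w) | w) hw
      · intro h
        exact hch ⟨w, (adj_vb G l hl w).1 hw.symm, h⟩
      · exact absurd hw (G6 G l).irrefl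
      · exact absurd hw (adj_br G l hl)
  · have : {v | Sum.elim (l4 l) (fun _ => (0 : Fin 4)) v = 0} = {(Sum.inr () : (V ⊕ Unit) ⊕ Unit)} := by
      ext x
      rcases x with x | x
      · simp [l4_ne0 l hl x]
      · simp
    rw [this, ncard_singleton]

lemma good_zero (k : ℕ) : Good k 0 1 Unit ⊥ (fun _ => 0) := by
  refine ⟨.single 0, inferInstance, ?_, ?_, ?_, ?_, ?_⟩
  · intro _; decide
  · intro _ _; simp
  · intro _ h; exact absurd h (by decide)
  · rintro f X X' _ ⟨⟨⟩, _, h1, h2⟩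
    exact Or.inr (Or.inr ⟨(), rfl, ⟨h1, fun w hw => absurd hw (by simp)⟩,
      ⟨h2, fun w hw => absurd hw (by simp)⟩⟩)
  · have : {v : Unit | (fun _ => (0 : Fin 4)) v = 0} = {()} := by ext; simp
    rw [this, ncard_singleton]

lemma good_exists (k m : ℕ) : ∃ (V : Type) (G : SimpleGraph V) (l : V → Fin 4),
    Good k m 1 V G l := by
  induction m with
  | zero => exact ⟨_, _, _, good_zero k⟩
  | succ m ih =>
    obtain ⟨V, G, l, h⟩ := ih
    obtain ⟨W, H, l', h'⟩ := good_forest h k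
    exact ⟨_, _, _, good_step (good_mono h' (Nat.le_succ k))⟩

lemma merge {G : SimpleGraph V} {c : ℕ} (hc : 4 ≤ c) (h : HasDomaticPartition G c) :
    HasDomaticPartition G 4 := by
  obtain ⟨f, hf⟩ := h
  refine ⟨fun v => ⟨min (f v).1 3, by omega⟩, fun i v => ?_⟩
  obtain ⟨x, hx, hxv⟩ := hf ⟨i.1, by omega⟩ v
  refine ⟨x, ?_, hxv⟩
  have hx' : f x = ⟨i.1, by omega⟩ := hx
  simp only [mem_preimage, mem_singleton_iff]
  apply Fin.ext
  simp only [hx']
  omega

lemma good_dom {k m : ℕ} {G : SimpleGraph V} {l : V → Fin 4} (hG : Good k m 1 V G l) (c : ℕ)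
    (hc : HasDomaticPartition G c) : c ≤ 3 := by
  by_contra hlt
  obtain ⟨f, hf⟩ := merge (by omega) hc
  have hund : ∀ v X, ¬ Und G f v X := by
    rintro v X ⟨h1, h2⟩
    obtain ⟨x, hx, hxv | hxv⟩ := hf X v
    · subst hxv
      exact h1 hx
    · exact h2 x hxv.symm hx
  obtain ⟨r, hr⟩ : {v | l v = 0}.Nonempty := by
    have := hG.fin
    rw [← ncard_pos (toFinite _)]
    exact hG.roots
  have hr' : l r = 0 := hr
  obtain ⟨X, X', hXX, h1, h2⟩ : ∃ X X' : Fin 4, X ≠ X' ∧ f r ≠ X ∧ f r ≠ X' := by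
    generalize f r = z
    revert z
    decide
  rcases hG.col f X X' hXX ⟨r, hr', h1, h2⟩ with ⟨b, _, Y, hY⟩ | ⟨v, _, h | h⟩ | ⟨v, _, h, _⟩
  · exact hund _ _ hY
  · exact hund _ _ h
  · exact hund _ _ h
  · exact hund _ _ h

/-- For every `t ≥ 4` the class of the graphs of clique-width at most `t` is not DOM-bounded;
in fact there are nonempty finite graphs of clique-width at most `4` with arbitrarily large
minimum degree and domatic number at most `3`. -/
theorem result :
    (∀ t : ℕ, 4 ≤ t → ¬ DomBounded (cwClass t)) ∧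
    ∀ d : ℕ, ∃ (V : Type) (_ : Nonempty V) (_ : Finite V) (G : SimpleGraph V), CwLE G 4 ∧
      (∀ v, d ≤ (G.neighborSet v).ncard) ∧ (∀ c, HasDomaticPartition G c → c ≤ 3) ∧
      domaticNumber G ≤ 3 := by
  have main : ∀ d : ℕ, ∃ (V : Type) (_ : Nonempty V) (_ : Finite V) (G : SimpleGraph V),
      CwLE G 4 ∧ (∀ v, d ≤ (G.neighborSet v).ncard) ∧ (∀ c, HasDomaticPartition G c → c ≤ 3) ∧
      domaticNumber G ≤ 3 := by
    intro d
    obtain ⟨V, G, l, h⟩ := good_exists d d
    have hfin := h.fin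
    have hne : Nonempty V := by
      obtain ⟨r, _⟩ : {v | l v = 0}.Nonempty := by
        rw [← ncard_pos (toFinite _)]
        exact h.roots
      exact ⟨r⟩
    refine ⟨V, hne, hfin, G, ⟨4, le_rfl, V, G, l, h.built, ⟨Iso.refl⟩⟩, ?_,
      fun c => good_dom h c, ?_⟩
    · intro v
      by_cases hv : l v = 2
      · exact h.deg2 v hv
      · simpa using h.deg01 v hv
    · unfold domaticNumber
      rcases Set.eq_empty_or_nonempty {k | HasDomaticPartition G k} with he | hne'
      · rw [he]; simp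
      · exact csSup_le hne' (fun c hc => good_dom h c hc)
  refine ⟨?_, main⟩
  intro t ht hdom
  obtain ⟨d, hd⟩ := hdom 3
  obtain ⟨V, hne, hfin, G, ⟨s, hs, hb⟩, hdeg, _, h3⟩ := main d
  have := hd V G ⟨hfin, s, hs.trans ht, hb⟩ hdeg
  omega

end Pool.Agent.Results.MP_21a028_co.CliqueWidthFour
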